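import Mathlib
import Pool.Agent.Lib.MP_a1df92_al.Defs
import Pool.Agent.Lib.MP_a1df92_al.Main

/-!
# The Lie cube of the natural module of `GL₃(F₃)`, restricted to the monomial subgroup

For `F = F₃`, `V = F³` and `H = {±1} wr S₃`, the group `H` is maximal in `GL(V)`, the condition
`(∗₃)` holds and `(∗₄)` fails, and `L³V`, as an `F H`-module, is neither completely reducible nor
uniserial.
-/

namespace Pool.Agent.Results.MP_a1df92_al.MonomialLieCube

open Pool.Agent.MP_a1df92_al

/-- The monomial subgroup `H` of `GL₃(F₃)` is maximal, satisfies `(∗₃)` but not `(∗₄)`, and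
`L³V` restricted to `H` is neither completely reducible nor uniserial. -/
theorem result :
    IsCoatom monomialGroup ∧
      Star monomialGroup 3 ∧
      ¬ Star monomialGroup 4 ∧
      ¬ CompletelyReducible monomialGroup (liePower (ZMod 3) (Fin 3 → ZMod 3) 3) ∧
      ¬ Uniserial monomialGroup (liePower (ZMod 3) (Fin 3 → ZMod 3) 3) :=
  ⟨monomial_maximal, star_three, not_star_four, not_cr, not_uniserial⟩

end Pool.Agent.Results.MP_a1df92_al.MonomialLieCube
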